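import Pool.Agent.helper69.DH.SpecR2

/-!
# Project d2: (MP_5823cb_al): routing, row rNRM (the normalisation) (helper99)
-/

set_option autoImplicit false

open Filter Topology MeasureTheory
open scoped commutatorElement

namespace Pool.Agent.helper90.DH

open Pool.Agent.helper64.D2

theorem rNRM_near (s : ℕ) (x : ℝ) : |2 ^ s * x - 2 ^ s * rlp s (ci s x)| ≤ 1 := by
  have h2 : (0 : ℝ) < 2 ^ s := by positivity
  have e1 : (2 : ℝ) ^ s * rlp s (ci s x) = (ci s x : ℝ) := by
    unfold rlp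
    field_simp
  rw [e1]
  have h3 : (ci s x : ℝ) ≤ 2 ^ s * x := Int.floor_le _
  have h4 : 2 ^ s * x < (ci s x : ℝ) + 1 := Int.lt_floor_add_one _
  rw [abs_le]
  constructor <;> linarith

open Classical in
theorem rNRM (hETA : rETA_stmt) (hHOT : rHOT_stmt) : rNRM_stmt := by
  intro P S hR D hD s n hs0 hsS hn hK
  have hCR : ¬ rCR P D.H D.K 0 s n := (hHOT P S hR D hD s hsS).2 n hn hK
  unfold rCR at hCR
  rw [not_le] at hCR
  set F : Finset ℕ := (Finset.range P.q).filter (fun k => rin D.H (rrh 0) s (rlp s (rbb P s k n)) ∨ P.q ≤ 3000 * rdg P D.K 0 s (rbb P s k n)) with hF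
  have hgood : ∀ k ∈ Finset.range P.q, k ∉ F → reta D.H s (rpt P s k n) = 1 := by
    intro k hk hkF
    have hnr : ¬ rin D.H (rrh 0) s (rlp s (rbb P s k n)) := by
      intro h
      exact hkF (Finset.mem_filter.2 ⟨hk, Or.inl h⟩)
    have hemp : rAc D.H (3 * 2 ^ 30 - 8) s (rpt P s k n) = ∅ := by
      rw [Finset.eq_empty_iff_forall_notMem]
      intro t ht
      unfold rAc at ht
      rw [Finset.mem_filter] at ht
      obtain ⟨h1, m, hm, h2⟩ := ht
      have hts : t ≤ s := Nat.lt_succ_iff.1 (Finset.mem_range.1 h1)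
      apply hnr
      refine ⟨t, hts, m, hm, ?_⟩
      have h3 := rNRM_near s (rpt P s k n)
      have h3' : |2 ^ s * (rpt P s k n) - 2 ^ s * rlp s (rbb P s k n)| ≤ 1 := h3
      have h4 : |(2 : ℝ) ^ t * (rpt P s k n) - 2 ^ t * rlp s (rbb P s k n)| ≤ 1 := by
        rw [← mul_sub, abs_mul, abs_of_nonneg (by positivity : (0 : ℝ) ≤ 2 ^ t)]
        rw [← mul_sub, abs_mul, abs_of_nonneg (by positivity : (0 : ℝ) ≤ 2 ^ s)] at h3'
        have h5 : (2 : ℝ) ^ t ≤ 2 ^ s := pow_le_pow_right₀ (by norm_num) hts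
        exact le_trans (mul_le_mul_of_nonneg_right h5 (abs_nonneg _)) h3'
      have h6 : |2 ^ t * rlp s (rbb P s k n) - (m : ℝ)| ≤ |(2 : ℝ) ^ t * (rpt P s k n) - 2 ^ t * rlp s (rbb P s k n)| + |2 ^ t * (rpt P s k n) - (m : ℝ)| := by
        rw [abs_sub_comm (2 ^ t * (rpt P s k n)) (2 ^ t * rlp s (rbb P s k n))]
        exact abs_sub_le _ _ _
      unfold rrh
      push_cast
      linarith
    exact ((hETA D.H s (rpt P s k n)).2.1 hemp) _ (by rw [sub_self, abs_zero]; positivity)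
  have h01 : ∀ k : ℕ, 0 ≤ reta D.H s (rpt P s k n) ∧ reta D.H s (rpt P s k n) ≤ 1 := fun k =>
    ⟨(hETA D.H s (rpt P s k n)).1.1, (hETA D.H s (rpt P s k n)).1.2.1⟩
  have hcard : (F.card : ℝ) ≤ P.q / 100 := by
    have : ((100 * F.card : ℕ) : ℝ) < (P.q : ℝ) := by exact_mod_cast hCR
    push_cast at this
    linarith
  have hsub : F ⊆ Finset.range P.q := Finset.filter_subset _ _
  constructor
  · unfold rNN
    have h1 : ∑ j ∈ (Finset.range P.q) \ F, reta D.H s (rpt P s j n) ≤ ∑ j ∈ Finset.range P.q, reta D.H s (rpt P s j n) :=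
      Finset.sum_le_sum_of_subset_of_nonneg Finset.sdiff_subset (fun j _ _ => (h01 j).1)
    have h2 : ∑ j ∈ (Finset.range P.q) \ F, reta D.H s (rpt P s j n) = ∑ j ∈ (Finset.range P.q) \ F, (1 : ℝ) :=
      Finset.sum_congr rfl fun j hj => hgood j (Finset.mem_sdiff.1 hj).1 (Finset.mem_sdiff.1 hj).2
    have h3 : ∑ j ∈ (Finset.range P.q) \ F, (1 : ℝ) = (P.q : ℝ) - F.card := by
      rw [Finset.sum_const, nsmul_eq_mul, mul_one]
      have h4 := Finset.card_sdiff_add_card_eq_card hsub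
      rw [Finset.card_range] at h4
      have h5 : (((Finset.range P.q) \ F).card : ℝ) + (F.card : ℝ) = (P.q : ℝ) := by exact_mod_cast h4
      linarith
    rw [h2, h3] at h1
    linarith
  · unfold rNN
    calc ∑ j ∈ Finset.range P.q, reta D.H s (rpt P s j n) ≤ ∑ j ∈ Finset.range P.q, (1 : ℝ) := Finset.sum_le_sum fun j _ => (h01 j).2
      _ = P.q := by simp

end Pool.Agent.helper90.DH
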